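import Mathlib
import Pool.Agent.U332.OI.Alm3

/-! # Irregular indices in all large Galois orbits of odd characters, for almost all primes

`k ↦ ω^k` identifies the odd `k`, `1 ≤ k ≤ p - 2`, with the odd characters modulo `p`; the Galois
orbits are the sets `{k : gcd(k, p - 1) = e}`, `e` an odd divisor of `p - 1` (the characters of
exact order `(p - 1) / e`). The index `k` is irregular if `p` divides the numerator of
`B_{k+1}` (the numerator of `B_{p-1}` is prime to `p`, so `k = p - 2` plays no role).

For almost all primes `p`, with a power saving in the number of exceptions, fewer than half of the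
indices of EVERY orbit with `e ≤ p^θ` are irregular; here `θ < 1/2` is arbitrary.

Proof. The norm of the half sum `∑_{a < p/2} χ(a)` is not zero and divisible by `p ^ r`. By the
inequality of the arithmetic and geometric means it is enough to bound the mean square of the half sums
over the characters `χ` of exact order `(p - 1) / e`. The main term comes from the diagonal; the other
terms are weighted correlations of square waves, and the contribution of a residue class `h = ± a / b`
(`a, b < √p`) is small unless `h` lies in the subgroup of order `e t` for a small `t`. Then `p` divides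
`a^n - b^n` for some `n ≤ p^(θ + δ)`, and for fixed `a ≠ b` and `n` there are few such primes, so the
mean value over the primes `p ≤ P` of the sum of `1 / (a b)` over all such pairs is small. -/

namespace Pool.Agent.Results.MP_a3a416_nt.AlmostAllPrimes

open Finset Pool.Agent.U332.OI

/-- Let `0 < θ < 1/2`, `κ > 2 θ` and `0 < ε < 1`. For all large `P`, all the primes `p ≤ P` outside a
set of at most `P ^ κ` numbers have the following property. Let `e ≤ p ^ θ` be an odd divisor
of `p - 1`, `m = φ((p - 1) / e)` (the number of all `k`, `1 ≤ k ≤ p - 2`, with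
`gcd(k, p - 1) = e`), and let `r` be the number of the `k`, `1 ≤ k ≤ p - 3`, with
`gcd(k, p - 1) = e` such that `p` divides the numerator of the Bernoulli number `B_{k+1}`. Then
`(2 - ε) ^ m p ^ (2 r) ≤ p ^ m`, and hence `2 r < m`. -/
theorem result :
    ∀ θ κ ε : ℝ, 0 < θ → θ < 1 / 2 → 2 * θ < κ → 0 < ε → ε < 1 →
      ∃ P₀ : ℕ, ∀ P : ℕ, P₀ ≤ P → ∃ S : Finset ℕ, (S.card : ℝ) ≤ (P : ℝ) ^ κ ∧
        ∀ p : ℕ, p.Prime → p ≤ P → p ∉ S → ∀ e : ℕ, Odd e → e ∣ p - 1 →
          (e : ℝ) ≤ (p : ℝ) ^ θ →
          (2 - ε) ^ (Nat.totient ((p - 1) / e)) *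
            (p : ℝ) ^ (2 * ((Icc 1 (p - 3)).filter fun k =>
              Nat.gcd k (p - 1) = e ∧ (p : ℤ) ∣ (bernoulli (k + 1)).num).card) ≤
            (p : ℝ) ^ (Nat.totient ((p - 1) / e)) ∧
          2 * ((Icc 1 (p - 3)).filter fun k =>
              Nat.gcd k (p - 1) = e ∧ (p : ℤ) ∣ (bernoulli (k + 1)).num).card <
            Nat.totient ((p - 1) / e) := by
  intro θ κ ε hθ hθ' hκ hε hε1
  obtain ⟨P₀, hP₀⟩ := err_alm θ κ ε hθ hθ' hκ hε
  refine ⟨P₀, fun P hP => ?_⟩
  obtain ⟨S, hS, h⟩ := hP₀ P hP
  refine ⟨S, hS, fun p hp hpP hpS e he hep heL => ?_⟩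
  have : Fact p.Prime := ⟨hp⟩
  obtain ⟨D⟩ := exists_DL p
  obtain ⟨hp3, h1⟩ := h p D hpP hpS
  exact orbit_of_err D hp3 ((p - 1) / e) e he (Nat.mul_div_cancel' hep) ε hε hε1
    (h1 _ e he.pos (Nat.mul_div_cancel' hep) heL)

end Pool.Agent.Results.MP_a3a416_nt.AlmostAllPrimes
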