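import Mathlib
import Pool.Agent.U332.OI.Fin
import Pool.Agent.U332.OI.Char

/-! # Irregular indices in the Galois orbits of odd characters

`k ↦ ω^k` identifies the odd `k`, `1 ≤ k ≤ p - 2`, with the odd characters modulo `p`; the Galois
orbits are the sets `{k : gcd(k, p - 1) = e}`, `e` an odd divisor of `p - 1` (the characters of
exact order `(p - 1) / e`). The index `k` is irregular if `p` divides the numerator of
`B_{k+1}` (the numerator of `B_{p-1}` is prime to `p`, so `k = p - 2` plays no role).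
Part 1 is proved with an asymptotic evaluation of the mean square of the half sums
`∑_{a < p/2} χ(a)` over the characters `χ` of exact order `(p - 1) / e`. -/

namespace Pool.Agent.Results.MP_a3a416_nt.OrbitIndices

open Finset Pool.Agent.U332.OI

theorem am_gm {ι : Type} (s : Finset ι) (hs : s.Nonempty) (f : ι → ℝ) (hf : ∀ i ∈ s, 0 ≤ f i) :
    ∏ i ∈ s, f i ≤ ((∑ i ∈ s, f i) / s.card) ^ s.card := by
  have hc : (0 : ℝ) < s.card := by exact_mod_cast hs.card_pos
  have h := Real.geom_mean_le_arith_mean_weighted s (fun _ => (1 : ℝ) / s.card) f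
    (fun i _ => by positivity) (by rw [sum_const, nsmul_eq_mul]; field_simp) hf
  have h1 : ∏ i ∈ s, f i = (∏ i ∈ s, f i ^ ((1 : ℝ) / s.card)) ^ s.card := by
    rw [← prod_pow]
    apply prod_congr rfl
    intro i hi
    rw [← Real.rpow_natCast, ← Real.rpow_mul (hf i hi), one_div_mul_cancel hc.ne', Real.rpow_one]
  rw [h1]
  apply pow_le_pow_left₀
  · exact prod_nonneg fun i hi => Real.rpow_nonneg (hf i hi) _
  · refine h.trans (le_of_eq ?_)
    rw [← mul_sum]
    ring

/-- Let `r` be the number of the `k`, `1 ≤ k ≤ p - 3`, with `gcd(k, p - 1) = e` such that the prime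
`p` divides the numerator of the Bernoulli number `B_{k+1}`, and let `m = φ((p - 1) / e)`, the
number of all `k`, `1 ≤ k ≤ p - 2`, with `gcd(k, p - 1) = e`.

1. For every `0 < ε < 1`, if `p` is large (in terms of `ε`) and `e` is an odd divisor of `p - 1`
with `e ≤ (log p) ^ (1 - ε)`, then `(2 - ε) ^ m p ^ (2 r) ≤ p ^ m` and hence `2 r < m`.

2. For every odd prime `p` and every odd divisor `e` of `p - 1`,
`p ^ (2 r) ≤ (p (1 + log p) ^ 2) ^ m`. -/
theorem result :
    (∀ ε : ℝ, 0 < ε → ε < 1 → ∃ P : ℕ, ∀ p : ℕ, p.Prime → P ≤ p → ∀ e : ℕ, Odd e → e ∣ p - 1 →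
      (e : ℝ) ≤ (Real.log p) ^ (1 - ε) →
      (2 - ε) ^ (Nat.totient ((p - 1) / e)) *
        (p : ℝ) ^ (2 * ((Icc 1 (p - 3)).filter fun k =>
          Nat.gcd k (p - 1) = e ∧ (p : ℤ) ∣ (bernoulli (k + 1)).num).card) ≤
        (p : ℝ) ^ (Nat.totient ((p - 1) / e)) ∧
      2 * ((Icc 1 (p - 3)).filter fun k =>
          Nat.gcd k (p - 1) = e ∧ (p : ℤ) ∣ (bernoulli (k + 1)).num).card <
        Nat.totient ((p - 1) / e)) ∧
    (∀ p : ℕ, p.Prime → 3 ≤ p → ∀ e : ℕ, Odd e → e ∣ p - 1 →
      (p : ℝ) ^ (2 * ((Icc 1 (p - 3)).filter fun k =>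
          Nat.gcd k (p - 1) = e ∧ (p : ℤ) ∣ (bernoulli (k + 1)).num).card) ≤
        (p * (1 + Real.log p) ^ 2) ^ (Nat.totient ((p - 1) / e))) := by
  constructor
  · intro ε hε hε1
    obtain ⟨P, hP⟩ := err_small ε ε hε hε1 hε
    refine ⟨max P 3, fun p hp hPp e he hep heL => ?_⟩
    have : Fact p.Prime := ⟨hp⟩
    have hp3 : 3 ≤ p := (le_max_right _ _).trans hPp
    have hp2 : p % 2 = 1 := by
      rcases hp.eq_two_or_odd with h | h
      · omega
      · exact h
    obtain ⟨D⟩ := exists_DL p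
    set d := (p - 1) / e with hd
    have hde : e * d = p - 1 := Nat.mul_div_cancel' hep
    have hd0 : 0 < d := by
      rcases Nat.eq_zero_or_pos d with h | h
      · rw [h, mul_zero] at hde; omega
      · exact h
    set r := ((Icc 1 (p - 3)).filter fun k =>
          Nat.gcd k (p - 1) = e ∧ (p : ℤ) ∣ (bernoulli (k + 1)).num).card with hr
    have h1 := D.pow_le_prod hp3 d e he hde
    have hirr : (irr p e).card = r := rfl
    rw [hirr] at h1
    have h2 := hP p D ((le_max_left _ _).trans hPp) d e he.pos hde heL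
    have h3 := D.mean_bound hp2 d e he hde
    have hcard : (primitiveRoots d ℂ).card = Nat.totient d :=
      (Complex.isPrimitiveRoot_exp d hd0.ne').card_primitiveRoots
    have hφ : 0 < Nat.totient d := Nat.totient_pos.mpr hd0
    have hφ' : (0 : ℝ) < Nat.totient d := by exact_mod_cast hφ
    have hne : (primitiveRoots d ℂ).Nonempty := by
      rw [← card_pos, hcard]; exact hφ
    have hp0 : (0 : ℝ) < p := by positivity
    have h4 : (∑ z ∈ primitiveRoots d ℂ, ‖Polynomial.aeval z D.f‖ ^ 2) / Nat.totient d ≤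
        p * (2 + ε) / 4 := by
      rw [div_le_iff₀ hφ']
      have h5 : (Nat.totient d : ℝ) * (2 * p +
          ∑ h : (ZMod p)ˣ with h ≠ 1 ∧ h ≠ -1, (|CC h| : ℝ) / (Nat.totient (D.oo d h) : ℝ)) ≤
          Nat.totient d * (2 * p + ε * p) := by gcongr
      nlinarith
    have h5 := am_gm (primitiveRoots d ℂ) hne (fun z => ‖Polynomial.aeval z D.f‖ ^ 2)
      (fun z _ => by positivity)
    rw [hcard, prod_pow] at h5
    have h6 : ((∑ z ∈ primitiveRoots d ℂ, ‖Polynomial.aeval z D.f‖ ^ 2) / Nat.totient d) ^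
        (Nat.totient d) ≤ (p * (2 + ε) / 4) ^ (Nat.totient d) := by
      apply pow_le_pow_left₀ _ h4
      positivity
    have h7 : (p : ℝ) ^ (2 * r) ≤ (p * (2 + ε) / 4) ^ (Nat.totient d) := by
      calc (p : ℝ) ^ (2 * r) = ((p : ℝ) ^ r) ^ 2 := by rw [mul_comm, pow_mul]
        _ ≤ (∏ z ∈ primitiveRoots d ℂ, ‖Polynomial.aeval z D.f‖) ^ 2 := by gcongr
        _ ≤ _ := h5.trans h6
    have h8 : 0 ≤ 2 - ε := by linarith
    have h9 : (2 - ε) ^ (Nat.totient d) * (p : ℝ) ^ (2 * r) ≤ (p : ℝ) ^ (Nat.totient d) := by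
     calc (2 - ε) ^ (Nat.totient d) * (p : ℝ) ^ (2 * r) ≤
        (2 - ε) ^ (Nat.totient d) * (p * (2 + ε) / 4) ^ (Nat.totient d) := by gcongr
      _ = ((2 - ε) * (p * (2 + ε) / 4)) ^ (Nat.totient d) := by rw [mul_pow]
      _ ≤ (p : ℝ) ^ (Nat.totient d) := by
          apply pow_le_pow_left₀
          · positivity
          · nlinarith [mul_pos hp0 (mul_pos hε hε)]
    refine ⟨h9, ?_⟩
    have h10 : (1 : ℝ) < (2 - ε) ^ (Nat.totient d) := one_lt_pow₀ (by linarith) hφ.ne'
    have h11 : (p : ℝ) ^ (2 * r) < (p : ℝ) ^ (Nat.totient d) := by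
      have h12 : 0 < (p : ℝ) ^ (2 * r) := by positivity
      nlinarith
    have hp1 : (1 : ℝ) < p := by
      have : 1 < p := by omega
      exact_mod_cast this
    exact (pow_lt_pow_iff_right₀ hp1).mp h11
  · intro p hp hp3 e he hep
    have : Fact p.Prime := ⟨hp⟩
    have hp2 : p % 2 = 1 := by
      rcases hp.eq_two_or_odd with h | h
      · omega
      · exact h
    obtain ⟨D⟩ := exists_DL p
    set d := (p - 1) / e with hd
    have hde : e * d = p - 1 := Nat.mul_div_cancel' hep
    have hd0 : 0 < d := by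
      rcases Nat.eq_zero_or_pos d with h | h
      · rw [h, mul_zero] at hde; omega
      · exact h
    set r := ((Icc 1 (p - 3)).filter fun k =>
          Nat.gcd k (p - 1) = e ∧ (p : ℤ) ∣ (bernoulli (k + 1)).num).card with hr
    have h1 := D.pow_le_prod hp3 d e he hde
    have hirr : (irr p e).card = r := rfl
    rw [hirr] at h1
    have hcard : (primitiveRoots d ℂ).card = Nat.totient d :=
      (Complex.isPrimitiveRoot_exp d hd0.ne').card_primitiveRoots
    have hp0 : (0 : ℝ) < p := by positivity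
    have h2 : ∏ z ∈ primitiveRoots d ℂ, ‖Polynomial.aeval z D.f‖ ≤
        (Real.sqrt p * (1 + Real.log p)) ^ (Nat.totient d) := by
      rw [← hcard, ← prod_const]
      apply prod_le_prod
      · intro z _; exact norm_nonneg _
      · intro z hz
        obtain ⟨h5, h6⟩ := prim_facts hp2 d e he hde (isPrimitiveRoot_of_mem_primitiveRoots hz)
        exact D.aeval_le hp2 h5 h6
    calc (p : ℝ) ^ (2 * r) = ((p : ℝ) ^ r) ^ 2 := by rw [mul_comm, pow_mul]
      _ ≤ ((Real.sqrt p * (1 + Real.log p)) ^ (Nat.totient d)) ^ 2 := by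
          gcongr
          exact h1.trans h2
      _ = _ := by
          rw [← pow_mul, mul_comm (Nat.totient d) 2, pow_mul, mul_pow,
            Real.sq_sqrt hp0.le]

end Pool.Agent.Results.MP_a3a416_nt.OrbitIndices
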