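import Mathlib
import Pool.Agent.U829.IR.Final

set_option autoImplicit false

/-!
# Regular indices in short intervals of residue classes

Let `d ≥ 1`, let `H` be a nonempty set of `h` residue classes modulo `d` and
`δ = min (d + 1 - h, φ(2d))`. There is a constant `C` depending only on `d` such that for every prime
`p` every interval `(a, a + r]` with `r ≥ C a ^ (1 - 1 / (δ + 1))`, `a ≥ 1`, `2 (a + r) ≤ p - 3`
contains an `m` with `m mod d ∈ H` for which `p` does not divide the numerator of `B_{2m}`.

For one class `H = {c}` the exponent is `1 - 1 / (φ(2d) + 1)`; for all classes it is `1 / 2`.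

Proof. Suppose that all `m` in the window with `m mod d ∈ H` are irregular. A suitable combination
`F` of the series `t η^j / (exp (η^j t) - 1)`, `0 ≤ j ≤ d - h`, `η` a primitive `2d`-th root of unity
in characteristic `p`, has no coefficients in the window. Multiply `F` by `exp (x t)` for the `x` in a
box of frequencies `∑ i_j η^j`, `i_j ≤ M`, and apply an operator which kills all the exponentials
`t exp (x t)` of the box. One gets functions `T_x`, sums of functions each of which does not change in
one of the directions `η^j`, and `T_x` is `exp (x t)` times a polynomial of low degree up to a high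
order. The interpolation theorem `Pool.Agent.U829.IR.interp` shows that then all the `T_x` vanish.
-/

namespace Pool.Agent.Results.MP_a3a416_nt.ShortWindowsInClasses

/-- For every `d ≥ 1` there is `C` such that for every nonempty set `H` of residue classes modulo `d`,
with `δ = min (d + 1 - |H|, φ(2d))`, and every prime `p`: if `a ≥ 1`, `2 (a + r) + 3 ≤ p` and
`r ≥ C a ^ (1 - 1 / (δ + 1))`, then there is `m` with `a < m ≤ a + r` and `m mod d ∈ H` such that
`p` does not divide the numerator of `B_{2m}`. -/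
theorem result (d : ℕ) (hd : 1 ≤ d) :
    ∃ C : ℝ, ∀ H : Finset (ZMod d), H.Nonempty → ∀ p : ℕ, p.Prime → ∀ a r : ℕ, 1 ≤ a →
      2 * (a + r) + 3 ≤ p →
      C * (a : ℝ) ^ (1 - 1 / (((min (d + 1 - H.card) (Nat.totient (2 * d)) : ℕ) : ℝ) + 1)) ≤ r →
      ∃ m : ℕ, a < m ∧ m ≤ a + r ∧ (m : ZMod d) ∈ H ∧ ¬ ((p : ℤ) ∣ (bernoulli (2 * m)).num) := by
  refine ⟨((∑ δ ∈ Finset.range (d + 1), Pool.Agent.U829.IR.CC d δ : ℕ) : ℝ), ?_⟩
  intro H hH p hp a r ha hpr hr
  set δ := min (d + 1 - H.card) (Nat.totient (2 * d)) with hδ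
  refine Pool.Agent.U829.IR.main_nat d hd H hH p hp a r ha δ rfl ?_ hpr
  set S := ∑ δ ∈ Finset.range (d + 1), Pool.Agent.U829.IR.CC d δ with hS
  have hδd : δ ∈ Finset.range (d + 1) := by
    rw [Finset.mem_range, hδ]
    have := hH.card_pos
    have h2 : min (d + 1 - H.card) (Nat.totient (2 * d)) ≤ d + 1 - H.card := min_le_left _ _
    omega
  have h1 : Pool.Agent.U829.IR.CC d δ ≤ S :=
    Finset.single_le_sum (f := fun δ => Pool.Agent.U829.IR.CC d δ) (fun _ _ => Nat.zero_le _) hδd
  have h2 : ((S : ℝ) * (a : ℝ) ^ (1 - 1 / ((δ : ℝ) + 1))) ^ (δ + 1) ≤ (r : ℝ) ^ (δ + 1) :=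
    pow_le_pow_left₀ (by positivity) hr _
  have h3 : ((a : ℝ) ^ (1 - 1 / ((δ : ℝ) + 1))) ^ (δ + 1) = (a : ℝ) ^ δ := by
    rw [← Real.rpow_natCast, ← Real.rpow_mul (by positivity), ← Real.rpow_natCast]
    congr 1
    have : ((δ : ℝ) + 1) ≠ 0 := by positivity
    push_cast
    field_simp
    ring
  rw [mul_pow, h3] at h2
  have h4 : S ^ (δ + 1) * a ^ δ ≤ r ^ (δ + 1) := by exact_mod_cast h2
  refine le_trans (Nat.mul_le_mul_right _ ?_) h4
  exact h1.trans (Nat.le_self_pow (by omega) S)

end Pool.Agent.Results.MP_a3a416_nt.ShortWindowsInClasses
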