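import Mathlib
import Pool.Agent.U784.RG.Fin

/-!
# Every integer up to `(p - 3) / 2` is a sum of two regular indices in many ways

Call `i`, `0 ≤ i ≤ (p - 3) / 2`, a regular index of the prime `p` if `p` does not divide the
numerator of `B_{2i}` (so `0` is one; `p` is regular if and only if all these `i` are). For every
prime `p` and every `N ≤ (p - 3) / 2`, regular or not, there are more than `√(2 N) / 3` integers
`i` with `0 ≤ i ≤ N` such that `i` and `N - i` are both regular indices.

The starting result `SumsOfRegularIndices` of this problem has a bound of this kind only for regular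
`N`; for irregular `N` it was not excluded that there is no such `i` at all. The starting library
(`Pool/Agent/TH10/RP/PPlus.lean`) shows that if there is one `i` then there are more than
`√(2 N) / 3`. What is new is that there is one.

Proof. Let `b_i = B_{2i} / (2i)!` modulo `p` and suppose `b_i b_{N-i} = 0` for all `i`.
(a) (`U784/RG/PF.lean`, `Ser.lean`) The partial fractions of
`(z^a + z^b) / ((z^a - 1) (z^b - 1))`, `a` and `b` coprime, at `z = e^x` give the reciprocity law
`b S(b, a) + a S(a, b) = 0` for the sums `S(b, a) = ∑ v(ζ^b) g(ζ)` over the `ζ ≠ 1` with `ζ^a = 1`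
in characteristic `p`, where `v(z) = (z + 1) / (z - 1)` and `g(ζ)` is the coefficient of `x^(2N-2)` in
`ζ / (e^x - ζ)`; the right hand side is zero because the coefficient of `x^(2N)` in
`(a x / 2) coth (a x / 2) (b x / 2) coth (b x / 2)` is `∑ b_i b_{N-i} a^(2i) b^(2N-2i) = 0`.
(b) (`Van.lean`) So all `S(b, a)` vanish, by Euclid's algorithm (one may change `b` modulo `a`).
(c) (`NV.lean`) Take `a = 3^(m+1)`. By (b) a product of two character sums over the roots of unity
of order `3^(m+1)`, one of `v` and one of `g`, with inverse characters of order `3^m`, is zero. But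
for every non-constant polynomial `P` over the field with `p` elements and all large `m` the sum
`∑_j ξ^j P(1 / (1 - ζ^(4^j)))` over `j < 3^m` is not zero (`ξ`, `ζ` of orders `3^m`, `3^(m+1)`):
otherwise, by the Frobenius automorphism, it vanishes for all `ξ ρ` with `ρ` of order dividing
`3^(m-s)`, `s` bounded, hence all the short sums `∑_{l < 3^s} λ^l P(1 / (1 - z η^l))` vanish for the
`3^(m-2s)` elements `z = ζ^(4^i)`, `3^s | i`; this is a rational function of `z` of bounded degree with
a pole at `z = 1`, so it has a bounded number of zeros.
-/

set_option autoImplicit false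

namespace Pool.Agent.Results.MP_a3a416_nt.EveryIndexTwoRegular

/-- For every prime `p` and every `N` with `2N + 3 ≤ p` the number `r` of the `i`, `0 ≤ i ≤ N`, such
that `p` divides neither the numerator of `B_{2i}` nor the numerator of `B_{2(N-i)}` satisfies
`2N < 9r²`. -/
theorem result (p : ℕ) (hp : p.Prime) (N : ℕ) (hN : 2 * N + 3 ≤ p) :
    2 * N < 9 * ((Finset.Icc 0 N).filter (fun i : ℕ => ¬ (p : ℤ) ∣ (bernoulli (2 * i)).num ∧
      ¬ (p : ℤ) ∣ (bernoulli (2 * (N - i))).num)).card ^ 2 :=
  Pool.Agent.U784.RG.pairs_card p hp N hN

end Pool.Agent.Results.MP_a3a416_nt.EveryIndexTwoRegular
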